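import Pool.Agent.P8H70.SR.Stm3

/-! Project SR (helper70), packages CHN and DOWN. -/

set_option autoImplicit false

open Filter Topology Metric Set

namespace Pool.Agent.P8H86.SR

open Pool.Agent.P8H70.SR

lemma pow_mem {s z : ℂ} {N : ℕ} (hN : 1 ≤ N) (hs : ‖s‖ = 1) (hz : z ∈ ball (0 : ℂ) 1) :
    s * z ^ N ∈ ball (0 : ℂ) 1 := by
  rw [mem_ball_zero_iff] at hz ⊢
  rw [norm_mul, hs, one_mul, norm_pow]
  exact pow_lt_one₀ (norm_nonneg _) hz (by omega)

lemma chain1 {g : ℂ → ℂ} {s : ℂ} {N : ℕ} (hN : 1 ≤ N) (hs : ‖s‖ = 1)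
    (hg : DifferentiableOn ℂ g (ball 0 1)) {z : ℂ} (hz : z ∈ ball (0 : ℂ) 1) :
    DifferentiableAt ℂ (fun z => g (s * z ^ N)) z ∧
    z * deriv (fun z => g (s * z ^ N)) z = N * ((s * z ^ N) * deriv g (s * z ^ N)) := by
  have h1 : DifferentiableAt ℂ g (s * z ^ N) :=
    hg.differentiableAt (isOpen_ball.mem_nhds (pow_mem hN hs hz))
  have h2 : HasDerivAt (fun z : ℂ => s * z ^ N) (s * (N * z ^ (N - 1))) z :=
    (hasDerivAt_pow N z).const_mul s
  have h3 : HasDerivAt (fun z => g (s * z ^ N)) (deriv g (s * z ^ N) * (s * (N * z ^ (N - 1)))) z :=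
    HasDerivAt.comp z h1.hasDerivAt h2
  refine ⟨h3.differentiableAt, ?_⟩
  rw [h3.deriv]
  have h4 : z ^ N = z * z ^ (N - 1) := by
    rw [← pow_succ']
    congr 1
    omega
  have h5 : ∀ a : ℂ, z * (a * (s * (N * z ^ (N - 1)))) = N * ((s * z ^ N) * a) := by
    intro a
    rw [h4]
    ring
  exact h5 _

theorem chn : S_CHN := by
  intro φ s N hN hs hφ z hz
  set F : ℂ → ℂ := fun z => φ (s * z ^ N) with hF
  have hFd : DifferentiableOn ℂ F (ball 0 1) := fun w hw =>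
    (chain1 hN hs hφ hw).1.differentiableWithinAt
  have hFd2 : DifferentiableAt ℂ (deriv F) z :=
    (hFd.deriv isOpen_ball).differentiableAt (isOpen_ball.mem_nhds hz)
  have hg : DifferentiableOn ℂ (fun w => w * deriv φ w) (ball 0 1) :=
    differentiableOn_id.mul (hφ.deriv isOpen_ball)
  obtain ⟨h1, h2⟩ := chain1 hN hs hg hz
  have hev : (fun z => z * deriv F z) =ᶠ[𝓝 z] fun z => (N : ℂ) * ((s * z ^ N) * deriv φ (s * z ^ N)) := by
    filter_upwards [isOpen_ball.mem_nhds hz] with w hw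
    exact (chain1 hN hs hφ hw).2
  have h3 : HasDerivAt (fun z => z * deriv F z) (1 * deriv F z + z * deriv (deriv F) z) z :=
    (hasDerivAt_id z).mul hFd2.hasDerivAt
  have h4 : HasDerivAt (fun z => (N : ℂ) * ((s * z ^ N) * deriv φ (s * z ^ N)))
      (N * deriv (fun z => (s * z ^ N) * deriv φ (s * z ^ N)) z) z :=
    h1.hasDerivAt.const_mul _
  have h5 : 1 * deriv F z + z * deriv (deriv F) z =
      N * deriv (fun z => (s * z ^ N) * deriv φ (s * z ^ N)) z := by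
    rw [← h3.deriv, hev.deriv_eq, h4.deriv]
  have hm := pow_mem hN hs hz
  have h6 : deriv (fun w => w * deriv φ w) (s * z ^ N) =
      1 * deriv φ (s * z ^ N) + (s * z ^ N) * deriv (deriv φ) (s * z ^ N) := by
    have h7 : DifferentiableAt ℂ (deriv φ) (s * z ^ N) :=
      (hφ.deriv isOpen_ball).differentiableAt (isOpen_ball.mem_nhds hm)
    exact ((hasDerivAt_id _).mul h7.hasDerivAt).deriv
  rw [h6] at h2
  calc z * deriv F z + z ^ 2 * deriv (deriv F) z = z * (1 * deriv F z + z * deriv (deriv F) z) := by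
        ring
    _ = N * (z * deriv (fun z => (s * z ^ N) * deriv φ (s * z ^ N)) z) := by rw [h5]; ring
    _ = _ := by rw [h2]; ring

/-- boundedness on a set -/
def Bdd (f : ℂ → ℂ) (S : Set ℂ) : Prop := ∃ M : ℝ, ∀ z ∈ S, ‖f z‖ ≤ M

lemma dist_le {S : Set ℂ} (hS : S ⊆ ball 0 1) {z w : ℂ} (hz : z ∈ S) (hw : w ∈ S) :
    ‖z - w‖ ≤ 2 := by
  have h1 := mem_ball_zero_iff.1 (hS hz)
  have h2 := mem_ball_zero_iff.1 (hS hw)
  have := norm_sub_le z w
  linarith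

lemma Bdd_of_HO {f : ℂ → ℂ} {S : Set ℂ} {α : ℝ} (hα : 0 < α) (hS : S ⊆ ball 0 1)
    (h : HO α f S) : Bdd f S := by
  rcases S.eq_empty_or_nonempty with rfl | ⟨z0, hz0⟩
  · exact ⟨0, fun z hz => absurd hz (by simp)⟩
  · obtain ⟨H, hH⟩ := h
    refine ⟨‖f z0‖ + |H| * 2 ^ α, fun z hz => ?_⟩
    have h1 := hH z hz z0 hz0
    have h2 : ‖z - z0‖ ^ α ≤ (2 : ℝ) ^ α :=
      Real.rpow_le_rpow (norm_nonneg _) (dist_le hS hz hz0) hα.le
    have h3 : H * ‖z - z0‖ ^ α ≤ |H| * 2 ^ α :=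
      mul_le_mul (le_abs_self H) h2 (by positivity) (abs_nonneg _)
    have h4 : ‖f z‖ ≤ ‖f z - f z0‖ + ‖f z0‖ := by
      have := norm_add_le (f z - f z0) (f z0)
      rwa [sub_add_cancel] at this
    linarith

lemma lip_of_bdd {g : ℂ → ℂ} {S : Set ℂ} (hg : DifferentiableOn ℂ g (ball 0 1)) (hc : Convex ℝ S)
    (hS : S ⊆ ball 0 1) {M : ℝ} (hM : ∀ z ∈ S, ‖deriv g z‖ ≤ M) :
    ∀ z ∈ S, ∀ w ∈ S, ‖g z - g w‖ ≤ M * ‖z - w‖ := by
  intro z hz w hw
  exact hc.norm_image_sub_le_of_norm_deriv_le (𝕜 := ℂ)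
    (fun x hx => hg.differentiableAt (isOpen_ball.mem_nhds (hS hx))) hM hw hz

lemma Bdd_down {g : ℂ → ℂ} {S : Set ℂ} (hg : DifferentiableOn ℂ g (ball 0 1)) (hc : Convex ℝ S)
    (hS : S ⊆ ball 0 1) (h : Bdd (deriv g) S) : Bdd g S := by
  rcases S.eq_empty_or_nonempty with rfl | ⟨z0, hz0⟩
  · exact ⟨0, fun z hz => absurd hz (by simp)⟩
  · obtain ⟨M, hM⟩ := h
    refine ⟨‖g z0‖ + M * 2, fun z hz => ?_⟩
    have h1 := lip_of_bdd hg hc hS hM z hz z0 hz0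
    have hM0 : 0 ≤ M := (norm_nonneg _).trans (hM z0 hz0)
    have h2 : M * ‖z - z0‖ ≤ M * 2 := mul_le_mul_of_nonneg_left (dist_le hS hz hz0) hM0
    have h4 : ‖g z‖ ≤ ‖g z - g z0‖ + ‖g z0‖ := by
      have := norm_add_le (g z - g z0) (g z0)
      rwa [sub_add_cancel] at this
    linarith

lemma iter_diff {φ : ℂ → ℂ} (hφ : DifferentiableOn ℂ φ (ball 0 1)) (n : ℕ) :
    DifferentiableOn ℂ (iteratedDeriv n φ) (ball 0 1) := by
  induction n with
  | zero => rwa [iteratedDeriv_zero]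
  | succ n ih =>
    rw [iteratedDeriv_succ]
    exact ih.deriv isOpen_ball

lemma HO_of_lip {f : ℂ → ℂ} {S : Set ℂ} {α M : ℝ} (hα : 0 < α) (hα1 : α ≤ 1) (hM : 0 ≤ M)
    (hS : S ⊆ ball 0 1) (h : ∀ z ∈ S, ∀ w ∈ S, ‖f z - f w‖ ≤ M * ‖z - w‖) : HO α f S := by
  refine ⟨M * 2 ^ (1 - α), fun z hz w hw => (h z hz w hw).trans ?_⟩
  rw [mul_assoc]
  refine mul_le_mul_of_nonneg_left ?_ hM
  have h0 : 0 ≤ ‖z - w‖ := norm_nonneg _
  calc ‖z - w‖ = ‖z - w‖ ^ ((1 - α) + α) := by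
        rw [sub_add_cancel, Real.rpow_one]
    _ ≤ ‖z - w‖ ^ (1 - α) * ‖z - w‖ ^ α := by
        rcases eq_or_lt_of_le h0 with h1 | h1
        · rw [← h1, sub_add_cancel, Real.rpow_one]
          positivity
        · rw [Real.rpow_add h1]
    _ ≤ 2 ^ (1 - α) * ‖z - w‖ ^ α := by
        refine mul_le_mul_of_nonneg_right ?_ (by positivity)
        exact Real.rpow_le_rpow h0 (dist_le hS hz hw) (by linarith)

theorem down : S_DOWN := by
  intro φ S k α α' hα hα1 hα' hα'1 hk hφ hSo hSc hS h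
  have hstep : ∀ j : ℕ, Bdd (iteratedDeriv (3 + j) φ) S → Bdd (iteratedDeriv 3 φ) S := by
    intro j
    induction j with
    | zero => intro h; exact h
    | succ j ih =>
      intro h
      apply ih
      rw [← add_assoc, iteratedDeriv_succ] at h
      exact Bdd_down (iter_diff hφ _) hSc hS h
  have h3 : Bdd (iteratedDeriv 3 φ) S := by
    apply hstep (k - 2)
    have : 3 + (k - 2) = k + 1 := by omega
    rw [this]
    exact Bdd_of_HO hα hS h
  have e2 : iteratedDeriv 2 φ = deriv (deriv φ) := by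
    rw [iteratedDeriv_succ, iteratedDeriv_one]
  rw [← e2]
  rw [iteratedDeriv_succ] at h3
  obtain ⟨M, hM⟩ := h3
  have hM' : ∀ z ∈ S, ‖deriv (iteratedDeriv 2 φ) z‖ ≤ max M 0 := fun z hz =>
    (hM z hz).trans (le_max_left _ _)
  exact HO_of_lip hα' hα'1.le (le_max_right _ _) hS
    (lip_of_bdd (iter_diff hφ 2) hSc hS hM')

end Pool.Agent.P8H86.SR
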