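import Pool.Agent.P8H86.SR.Chn
import Pool.Agent.P8H45.SR.Hb

/-! Project SR (helper70), package HB2: Hölder continuity of the derivative of an infinite product. -/

set_option autoImplicit false

open Filter Topology Metric Set

namespace Pool.Agent.P8H86.SR

open Pool.Agent.P8H70.SR
open Pool.Agent.P8H45.SR.Hb

/-- the derivative of the orbit -/
noncomputable def DD (σ : ℕ → ℂ) (z : ℂ) : ℕ → ℂ
  | 0 => 1
  | i + 1 => DD σ z i * (2 * σ i * orb σ z i)

theorem orb_pow {σ : ℕ → ℂ} (hσ : ∀ i, ‖σ i‖ = 1) (z : ℂ) (i : ℕ) :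
    ‖orb σ z i‖ = ‖z‖ ^ (2 ^ i) := by
  induction i with
  | zero => simp [orb]
  | succ i ih =>
    rw [orb, norm_mul, hσ, one_mul, norm_pow, ih, ← pow_mul, pow_succ]

theorem DD_norm {σ : ℕ → ℂ} (hσ : ∀ i, ‖σ i‖ = 1) (z : ℂ) (i : ℕ) :
    ‖DD σ z i‖ = 2 ^ i * ‖z‖ ^ (2 ^ i - 1) := by
  induction i with
  | zero => simp [DD]
  | succ i ih =>
    rw [DD, norm_mul, norm_mul, norm_mul, hσ, ih, orb_pow hσ]
    have h1 : 2 ^ (i + 1) - 1 = (2 ^ i - 1) + 2 ^ i := by
      have := Nat.one_le_two_pow (n := i)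
      rw [pow_succ]
      omega
    rw [h1, pow_add, pow_succ]
    simp only [Complex.norm_ofNat]
    ring

theorem DD_le {σ : ℕ → ℂ} (hσ : ∀ i, ‖σ i‖ = 1) {z : ℂ} (hz : ‖z‖ < 1) (i : ℕ) :
    ‖DD σ z i‖ ≤ 2 ^ i := by
  rw [DD_norm hσ]
  have : ‖z‖ ^ (2 ^ i - 1) ≤ 1 := pow_le_one₀ (norm_nonneg _) hz.le
  have h2 : (0 : ℝ) < 2 ^ i := by positivity
  nlinarith

theorem DD_dist {σ : ℕ → ℂ} (hσ : ∀ i, ‖σ i‖ = 1) {z w : ℂ} (hz : ‖z‖ < 1) (hw : ‖w‖ < 1)
    (i : ℕ) : ‖DD σ z i - DD σ w i‖ ≤ 2 ^ i * min 2 (2 ^ i * ‖z - w‖) := by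
  rw [mul_min_of_nonneg _ _ (by positivity)]
  refine le_min ?_ ?_
  · have h1 := DD_le hσ hz i
    have h2 := DD_le hσ hw i
    have h3 := norm_sub_le (DD σ z i) (DD σ w i)
    linarith
  · induction i with
    | zero =>
      simp only [DD, sub_self, norm_zero]
      positivity
    | succ i ih =>
      have h1 : DD σ z (i + 1) - DD σ w (i + 1) = (2 * σ i) *
          ((DD σ z i - DD σ w i) * orb σ z i + DD σ w i * (orb σ z i - orb σ w i)) := by
        rw [DD, DD]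
        ring
      rw [h1, norm_mul, norm_mul, hσ, mul_one]
      simp only [Complex.norm_ofNat]
      have h2 := orb_norm hσ hz i
      have h3 := (orb_dist hσ hz hw i).trans (min_le_right _ _)
      have h4 := DD_le hσ hw i
      have h5 : ‖(DD σ z i - DD σ w i) * orb σ z i‖ ≤ 2 ^ i * (2 ^ i * ‖z - w‖) := by
        rw [norm_mul]
        calc ‖DD σ z i - DD σ w i‖ * ‖orb σ z i‖ ≤ (2 ^ i * (2 ^ i * ‖z - w‖)) * 1 :=
              mul_le_mul ih h2.le (norm_nonneg _) (by positivity)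
          _ = _ := mul_one _
      have h6 : ‖DD σ w i * (orb σ z i - orb σ w i)‖ ≤ 2 ^ i * (2 ^ i * ‖z - w‖) := by
        rw [norm_mul]
        exact mul_le_mul h4 h3 (norm_nonneg _) (by positivity)
      have h7 := norm_add_le ((DD σ z i - DD σ w i) * orb σ z i)
        (DD σ w i * (orb σ z i - orb σ w i))
      calc 2 * ‖(DD σ z i - DD σ w i) * orb σ z i + DD σ w i * (orb σ z i - orb σ w i)‖
          ≤ 2 * (2 ^ i * (2 ^ i * ‖z - w‖) + 2 ^ i * (2 ^ i * ‖z - w‖)) := by linarith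
        _ = 2 ^ (i + 1) * (2 ^ (i + 1) * ‖z - w‖) := by rw [pow_succ]; ring

theorem DD_lim {σ : ℕ → ℂ} (hσ : ∀ i, ‖σ i‖ = 1) {z : ℂ} (hz : ‖z‖ < 1) :
    Tendsto (fun i => ‖DD σ z i‖) atTop (𝓝 0) := by
  have h1 : Tendsto (fun n : ℕ => (n : ℝ) * ‖z‖ ^ n + ‖z‖ ^ n) atTop (𝓝 (0 + 0)) :=
    (tendsto_self_mul_const_pow_of_lt_one (norm_nonneg _) hz).add
      (tendsto_pow_atTop_nhds_zero_of_lt_one (norm_nonneg _) hz)
  rw [add_zero] at h1
  have h2 : Tendsto (fun i : ℕ => 2 ^ i - 1) atTop atTop := by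
    refine tendsto_atTop.2 fun b => ?_
    filter_upwards [eventually_ge_atTop (b + 1)] with i hi
    have : i < 2 ^ i := Nat.lt_two_pow_self
    omega
  refine (h1.comp h2).congr fun i => ?_
  rw [DD_norm hσ]
  simp only [Function.comp]
  have h3 : ((2 ^ i - 1 : ℕ) : ℝ) = 2 ^ i - 1 := by
    rw [Nat.cast_sub Nat.one_le_two_pow]
    push_cast
    ring
  rw [h3]
  ring

theorem hb2 : S_HB2 := by
  intro P q σ a A β B K hβ1 hβ2 hB hK hσ ha0 ha1 haA hPd hqd hP1 hPK hq1 hqa hqB hPq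
  obtain ⟨K', hK'0, hK'⟩ := F_le (α := β - 1) (by linarith) (by linarith)
  have hA : 0 ≤ A := by
    have h2 := (ha0 0).trans (haA 0)
    rwa [Nat.cast_zero, mul_zero, Real.rpow_zero, mul_one] at h2
  have ne : ∀ {x : ℂ}, 1 / 2 ≤ ‖x‖ → x ≠ 0 := by
    rintro x hx rfl
    rw [norm_zero] at hx
    norm_num at hx
  have hcb : Convex ℝ (ball (0 : ℂ) 1) := convex_ball 0 1
  have pz : ∀ i, ∀ z ∈ ball (0 : ℂ) 1, 1 / 2 ≤ ‖P i z‖ := fun i z hz =>
    norm_ge (hP1 i z hz) le_rfl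
  have qz : ∀ i, ∀ z ∈ ball (0 : ℂ) 1, 1 / 2 ≤ ‖q i z‖ := fun i z hz =>
    norm_ge (hq1 i z hz) (ha1 i)
  have qz2 : ∀ i, ∀ z ∈ ball (0 : ℂ) 1, ‖q i z‖ ≤ 3 / 2 := fun i z hz => by
    have h1 := hq1 i z hz
    have h2 := ha1 i
    have h3 : q i z = (q i z - 1) + 1 := by ring
    rw [h3]
    refine (norm_add_le _ _).trans ?_
    rw [norm_one]
    linarith
  let L : ℕ → ℂ → ℂ := fun i z => deriv (P i) z / P i z
  let ρ : ℕ → ℂ → ℂ := fun i z => deriv (q i) z / q i z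
  have hLb : ∀ i, ∀ z ∈ ball (0 : ℂ) 1, ‖L i z‖ ≤ 2 * K := by
    intro i z hz
    simp only [L]
    rw [norm_div, div_le_iff₀ (by linarith [pz i z hz])]
    have h1 := hPK i z hz
    have h2 := pz i z hz
    nlinarith
  have hρb : ∀ i, ∀ z ∈ ball (0 : ℂ) 1, ‖ρ i z‖ ≤ 2 * a i := by
    intro i z hz
    simp only [ρ]
    rw [norm_div, div_le_iff₀ (by linarith [qz i z hz])]
    have h1 := hqa i z hz
    have h2 := qz i z hz
    have h3 := ha0 i
    nlinarith
  have hqlip : ∀ i, ∀ z ∈ ball (0 : ℂ) 1, ∀ w ∈ ball (0 : ℂ) 1,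
      ‖q i z - q i w‖ ≤ a i * ‖z - w‖ := fun i =>
    lip_of_bdd (hqd i) hcb (subset_refl _) (hqa i)
  have hρl : ∀ i, ∀ z ∈ ball (0 : ℂ) 1, ∀ w ∈ ball (0 : ℂ) 1,
      ‖ρ i z - ρ i w‖ ≤ (6 * B + 2) * a i * ‖z - w‖ := by
    intro i z hz w hw
    have n1 := ne (qz i z hz)
    have n2 := ne (qz i w hw)
    have e1 : ρ i z - ρ i w = ((deriv (q i) z - deriv (q i) w) * q i w +
        deriv (q i) w * (q i w - q i z)) / (q i z * q i w) := by
      simp only [ρ]
      field_simp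
      ring
    have hpos : 0 < ‖q i z‖ * ‖q i w‖ := by
      have := qz i z hz
      have := qz i w hw
      positivity
    rw [e1, norm_div, norm_mul (q i z), div_le_iff₀ hpos]
    have h1 := qz i z hz
    have h2 := qz i w hw
    have h3 : 1 / 4 ≤ ‖q i z‖ * ‖q i w‖ := by nlinarith
    have hai := ha0 i
    have hd := norm_nonneg (z - w)
    have h4 : ‖(deriv (q i) z - deriv (q i) w) * q i w‖ ≤ (B * a i * ‖z - w‖) * (3 / 2) := by
      rw [norm_mul]
      exact mul_le_mul (hqB i z hz w hw) (qz2 i w hw) (norm_nonneg _) (by positivity)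
    have h5 : ‖deriv (q i) w * (q i w - q i z)‖ ≤ a i * (a i * ‖z - w‖) := by
      rw [norm_mul]
      refine mul_le_mul (hqa i w hw) ?_ (norm_nonneg _) hai
      rw [norm_sub_rev]
      exact hqlip i z hz w hw
    have h6 : a i * (a i * ‖z - w‖) ≤ 1 / 2 * (a i * ‖z - w‖) :=
      mul_le_mul_of_nonneg_right (ha1 i) (by positivity)
    have h7 := norm_add_le ((deriv (q i) z - deriv (q i) w) * q i w)
      (deriv (q i) w * (q i w - q i z))
    have h8 : 0 ≤ (6 * B + 2) * a i * ‖z - w‖ := by positivity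
    have h9 : (6 * B + 2) * a i * ‖z - w‖ * (1 / 4) ≤
        (6 * B + 2) * a i * ‖z - w‖ * (‖q i z‖ * ‖q i w‖) := mul_le_mul_of_nonneg_left h3 h8
    have h10 : (6 * B + 2) * a i * ‖z - w‖ * (1 / 4) =
        (B * a i * ‖z - w‖) * (3 / 2) + 1 / 2 * (a i * ‖z - w‖) := by ring
    linarith
  -- the recursion
  have hrec : ∀ i, ∀ z ∈ ball (0 : ℂ) 1,
      L i z = (2 * σ i * z) * L (i + 1) (σ i * z ^ 2) - ρ i z := by
    intro i z hz
    have hz2 : σ i * z ^ 2 ∈ ball (0 : ℂ) 1 := pow_mem (by norm_num) (hσ i) hz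
    have d1 : DifferentiableAt ℂ (P i) z := (hPd i).differentiableAt (isOpen_ball.mem_nhds hz)
    have d2 : DifferentiableAt ℂ (q i) z := (hqd i).differentiableAt (isOpen_ball.mem_nhds hz)
    have d3 : DifferentiableAt ℂ (P (i + 1)) (σ i * z ^ 2) :=
      (hPd (i + 1)).differentiableAt (isOpen_ball.mem_nhds hz2)
    have h1 := d1.hasDerivAt.mul d2.hasDerivAt
    have h2 : HasDerivAt (fun z : ℂ => σ i * z ^ 2) (σ i * (2 * z)) z := by
      simpa using (hasDerivAt_pow 2 z).const_mul (σ i)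
    have h3 : HasDerivAt (fun z => P (i + 1) (σ i * z ^ 2))
        (deriv (P (i + 1)) (σ i * z ^ 2) * (σ i * (2 * z))) z :=
      HasDerivAt.comp z d3.hasDerivAt h2
    have hev : (P i * q i) =ᶠ[𝓝 z] fun z => P (i + 1) (σ i * z ^ 2) := by
      filter_upwards [isOpen_ball.mem_nhds hz] with w hw
      exact hPq i w hw
    have h4 : deriv (P i) z * q i z + P i z * deriv (q i) z =
        deriv (P (i + 1)) (σ i * z ^ 2) * (σ i * (2 * z)) := by
      rw [← h1.deriv, hev.deriv_eq, h3.deriv]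
    have n1 := ne (pz i z hz)
    have n2 := ne (qz i z hz)
    have n3 := ne (pz (i + 1) _ hz2)
    simp only [L, ρ]
    have h5 := hPq i z hz
    have h6 : deriv (P i) z / P i z = (deriv (P i) z * q i z + P i z * deriv (q i) z) /
        (P i z * q i z) - deriv (q i) z / q i z := by
      field_simp
      ring
    rw [h6, h4, h5]
    field_simp
  -- the iterated recursion
  have mz : ∀ z ∈ ball (0 : ℂ) 1, ∀ i, orb σ z i ∈ ball (0 : ℂ) 1 := fun z hz i => by
    have hz' : ‖z‖ < 1 := by simpa using hz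
    simpa using orb_norm hσ hz' i
  have hit : ∀ z ∈ ball (0 : ℂ) 1, ∀ N : ℕ, L 0 z = DD σ z N * L N (orb σ z N) -
      ∑ i ∈ Finset.range N, DD σ z i * ρ i (orb σ z i) := by
    intro z hz N
    induction N with
    | zero => simp [DD, orb]
    | succ N ih =>
      rw [Finset.sum_range_succ, ih, hrec N _ (mz z hz N), DD, orb]
      ring
  -- the Hölder estimate of the logarithmic derivative
  have hL : ∀ z ∈ ball (0 : ℂ) 1, ∀ w ∈ ball (0 : ℂ) 1,
      ‖L 0 z - L 0 w‖ ≤ (6 * B + 4) * A * K' * ‖z - w‖ ^ (β - 1) := by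
    intro z hz w hw
    have hz' : ‖z‖ < 1 := by simpa using hz
    have hw' : ‖w‖ < 1 := by simpa using hw
    obtain ⟨d, hd⟩ : ∃ d : ℝ, d = ‖z - w‖ := ⟨_, rfl⟩
    have hd0 : 0 ≤ d := by rw [hd]; exact norm_nonneg _
    have hd2 : d ≤ 2 := by
      rw [hd]
      have := norm_sub_le z w
      linarith
    have ht : ∀ i, ‖DD σ z i * ρ i (orb σ z i) - DD σ w i * ρ i (orb σ w i)‖ ≤
        (6 * B + 4) * A * (((2 : ℝ) ^ (-(β - 1))) ^ i * min 2 (2 ^ i * d)) := by
      intro i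
      have e1 : DD σ z i * ρ i (orb σ z i) - DD σ w i * ρ i (orb σ w i) =
          (DD σ z i - DD σ w i) * ρ i (orb σ z i) +
            DD σ w i * (ρ i (orb σ z i) - ρ i (orb σ w i)) := by ring
      rw [e1]
      refine (norm_add_le _ _).trans ?_
      rw [norm_mul, norm_mul]
      have hai := ha0 i
      have m0 : 0 ≤ min 2 (2 ^ i * d) := le_min (by norm_num) (by positivity)
      have h1 := DD_dist hσ hz' hw' i
      rw [← hd] at h1
      have h2 := hρb i _ (mz z hz i)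
      have h3 := DD_le hσ hw' i
      have h4 := hρl i _ (mz z hz i) _ (mz w hw i)
      have h5 := orb_dist hσ hz' hw' i
      rw [← hd] at h5
      have h6 : ‖ρ i (orb σ z i) - ρ i (orb σ w i)‖ ≤ (6 * B + 2) * a i * min 2 (2 ^ i * d) :=
        h4.trans (mul_le_mul_of_nonneg_left h5 (by positivity))
      have h7 : ‖DD σ z i - DD σ w i‖ * ‖ρ i (orb σ z i)‖ ≤
          (2 ^ i * min 2 (2 ^ i * d)) * (2 * a i) :=
        mul_le_mul h1 h2 (norm_nonneg _) (by positivity)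
      have h8 : ‖DD σ w i‖ * ‖ρ i (orb σ z i) - ρ i (orb σ w i)‖ ≤
          2 ^ i * ((6 * B + 2) * a i * min 2 (2 ^ i * d)) :=
        mul_le_mul h3 h6 (norm_nonneg _) (by positivity)
      have h9 : 2 ^ i * a i ≤ A * ((2 : ℝ) ^ (-(β - 1))) ^ i := by
        have h10 := haA i
        rw [Real.rpow_mul (by norm_num), Real.rpow_natCast] at h10
        have h11 : (2 : ℝ) ^ (-(β - 1)) = 2 * 2 ^ (-β) := by
          have : -(β - 1) = 1 + -β := by ring
          rw [this, Real.rpow_add (by norm_num), Real.rpow_one]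
        rw [h11, mul_pow]
        calc 2 ^ i * a i ≤ 2 ^ i * (A * (2 ^ (-β)) ^ i) :=
              mul_le_mul_of_nonneg_left h10 (by positivity)
          _ = A * (2 ^ i * (2 ^ (-β)) ^ i) := by ring
      calc ‖DD σ z i - DD σ w i‖ * ‖ρ i (orb σ z i)‖ +
            ‖DD σ w i‖ * ‖ρ i (orb σ z i) - ρ i (orb σ w i)‖
          ≤ (2 ^ i * min 2 (2 ^ i * d)) * (2 * a i) +
            2 ^ i * ((6 * B + 2) * a i * min 2 (2 ^ i * d)) := add_le_add h7 h8
        _ = (6 * B + 4) * min 2 (2 ^ i * d) * (2 ^ i * a i) := by ring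
        _ ≤ (6 * B + 4) * min 2 (2 ^ i * d) * (A * ((2 : ℝ) ^ (-(β - 1))) ^ i) :=
            mul_le_mul_of_nonneg_left h9 (by positivity)
        _ = _ := by ring
    have hN : ∀ N : ℕ, ‖L 0 z - L 0 w‖ ≤ ‖DD σ z N‖ * (2 * K) + ‖DD σ w N‖ * (2 * K) +
        (6 * B + 4) * A * K' * d ^ (β - 1) := by
      intro N
      have e1 : L 0 z - L 0 w = DD σ z N * L N (orb σ z N) - DD σ w N * L N (orb σ w N) -
          ∑ i ∈ Finset.range N, (DD σ z i * ρ i (orb σ z i) - DD σ w i * ρ i (orb σ w i)) := by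
        rw [hit z hz N, hit w hw N, Finset.sum_sub_distrib]
        ring
      rw [e1]
      refine (norm_sub_le _ _).trans (add_le_add ?_ ?_)
      · refine (norm_sub_le _ _).trans (add_le_add ?_ ?_)
        · rw [norm_mul]
          exact mul_le_mul_of_nonneg_left (hLb N _ (mz z hz N)) (norm_nonneg _)
        · rw [norm_mul]
          exact mul_le_mul_of_nonneg_left (hLb N _ (mz w hw N)) (norm_nonneg _)
      · refine (norm_sum_le _ _).trans ((Finset.sum_le_sum fun i _ => ht i).trans ?_)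
        rw [← Finset.mul_sum]
        have h1 := hK' N d hd0 hd2
        unfold F at h1
        calc (6 * B + 4) * A * ∑ i ∈ Finset.range N,
              ((2 : ℝ) ^ (-(β - 1))) ^ i * min 2 (2 ^ i * d)
            ≤ (6 * B + 4) * A * (K' * d ^ (β - 1)) :=
              mul_le_mul_of_nonneg_left h1 (by positivity)
          _ = _ := by ring
    have hlim : Tendsto (fun N => ‖DD σ z N‖ * (2 * K) + ‖DD σ w N‖ * (2 * K) +
        (6 * B + 4) * A * K' * d ^ (β - 1)) atTop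
        (𝓝 (0 * (2 * K) + 0 * (2 * K) + (6 * B + 4) * A * K' * d ^ (β - 1))) :=
      (((DD_lim hσ hz').mul_const _).add ((DD_lim hσ hw').mul_const _)).add_const _
    rw [zero_mul, zero_add, zero_add] at hlim
    rw [← hd]
    exact ge_of_tendsto' hlim hN
  -- the end
  have hPlip : ∀ z ∈ ball (0 : ℂ) 1, ∀ w ∈ ball (0 : ℂ) 1, ‖P 0 z - P 0 w‖ ≤ K * ‖z - w‖ :=
    lip_of_bdd (hPd 0) hcb (subset_refl _) (hPK 0)
  obtain ⟨H1, hH1⟩ := HO_of_lip (α := β - 1) (by linarith) (by linarith) hK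
    (subset_refl (ball (0 : ℂ) 1)) hPlip
  refine ⟨3 / 2 * ((6 * B + 4) * A * K') + 2 * K * H1, fun z hz w hw => ?_⟩
  have n1 := ne (pz 0 z hz)
  have n2 := ne (pz 0 w hw)
  have e1 : deriv (P 0) z - deriv (P 0) w = P 0 z * (L 0 z - L 0 w) +
      L 0 w * (P 0 z - P 0 w) := by
    simp only [L]
    field_simp
    ring
  rw [e1]
  refine (norm_add_le _ _).trans ?_
  rw [norm_mul, norm_mul, add_mul]
  have hP32 : ‖P 0 z‖ ≤ 3 / 2 := by
    have h3 : P 0 z = (P 0 z - 1) + 1 := by ring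
    rw [h3]
    refine (norm_add_le _ _).trans ?_
    rw [norm_one]
    linarith [hP1 0 z hz]
  refine add_le_add ?_ ?_
  · calc ‖P 0 z‖ * ‖L 0 z - L 0 w‖ ≤ 3 / 2 * ((6 * B + 4) * A * K' * ‖z - w‖ ^ (β - 1)) :=
          mul_le_mul hP32 (hL z hz w hw) (norm_nonneg _) (by norm_num)
      _ = _ := by ring
  · calc ‖L 0 w‖ * ‖P 0 z - P 0 w‖ ≤ (2 * K) * (H1 * ‖z - w‖ ^ (β - 1)) :=
          mul_le_mul (hLb 0 w hw) (hH1 z hz w hw) (norm_nonneg _) (by positivity)
      _ = _ := by ring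

end Pool.Agent.P8H86.SR
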